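import Pool.Agent.SSF.Stmts

set_option autoImplicit false

open Set Topology

namespace Pool.Agent.SSF.H10

open Pool.Agent.LSG Pool.Agent.LPR Pool.Agent.SSF

/-- nonempty open sets are infinite -/
theorem open_inf {M : Type} [MetricSpace M] [Nontrivial M] (hM : Sim M) (U : Set M)
    (hU : IsOpen U) (hne : U.Nonempty) : U.Infinite := by
  intro hfin
  obtain ⟨x, hx⟩ := hne
  have h1 : IsOpen ({x} : Set M) := by
    have h2 : ({x} : Set M) = U \ (U \ {x}) := by
      ext y
      simp only [mem_singleton_iff, mem_diff, not_and, not_not]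
      constructor
      · rintro rfl
        exact ⟨hx, fun _ => rfl⟩
      · rintro ⟨h3, h4⟩
        exact h4 h3
    rw [h2]
    exact hU.sdiff (hfin.subset diff_subset).isClosed
  obtain ⟨η, -, hi, hη⟩ := hM {x} h1 ⟨x, rfl⟩
  obtain ⟨a, b, hab⟩ := exists_pair_ne M
  exact hab (hi ((hη a).trans (hη b).symm))

/-- an injective choice from a sequence of infinite sets -/
theorem choice_inj {M : Type} (f : ℕ → Set M) (hf : ∀ n, (f n).Infinite) :
    ∃ g : ℕ → M, (∀ n, g n ∈ f n) ∧ Function.Injective g := by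
  classical
  have h1 : ∀ (n : ℕ) (s : Finset M), ∃ x, x ∈ f n ∧ x ∉ s := fun n s =>
    (hf n).exists_notMem_finset s
  choose pick hp1 hp2 using h1
  let S : ℕ → Finset M := fun n => Nat.rec ∅ (fun n s => insert (pick n s) s) n
  have hS : ∀ n, S (n + 1) = insert (pick n (S n)) (S n) := fun n => rfl
  have hmono : Monotone S := by
    refine monotone_nat_of_le_succ fun n => ?_
    rw [hS]
    exact Finset.subset_insert _ _
  have hlt : ∀ n m, n < m → pick n (S n) ≠ pick m (S m) := by
    intro n m hnm h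
    have h2 : pick n (S n) ∈ S m := by
      have h3 : S (n + 1) ⊆ S m := hmono hnm
      refine h3 ?_
      rw [hS]
      exact Finset.mem_insert_self _ _
    rw [h] at h2
    exact hp2 m (S m) h2
  refine ⟨fun n => pick n (S n), fun n => hp1 n _, fun n m h => ?_⟩
  rcases lt_trichotomy n m with h1 | h1 | h1
  · exact absurd h (hlt n m h1)
  · exact h1
  · exact absurd h.symm (hlt m n h1)

/-- the copies near one point -/
theorem copies {M : Type} [MetricSpace M] [Nontrivial M] (hM : Sim M) (p : M) (r : ℝ)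
    (hr : 0 < r) : ∃ η : ℕ → M → M, (∀ n, Continuous (η n)) ∧
      (∀ n n' u u', η n u = η n' u' → n = n' ∧ u = u') ∧ (∀ n u, η n u ≠ p) ∧
      ∀ n u, dist (η n u) p ≤ r / (2 * (n + 1)) := by
  classical
  have h1 : ∀ b : ℝ, ∃ a : ℝ, 0 < b → 0 < a ∧ ∃ q, a < dist q p ∧ dist q p < b := by
    intro b
    by_cases hb : 0 < b
    · have h2 := open_inf hM (Metric.ball p b) Metric.isOpen_ball ⟨p, Metric.mem_ball_self hb⟩
      obtain ⟨q, hq1, hq2⟩ := h2.exists_notMem_finset {p}
      have hq3 : 0 < dist q p := dist_pos.2 (by simpa using hq2)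
      exact ⟨dist q p / 2, fun _ => ⟨by positivity, q, by linarith, hq1⟩⟩
    · exact ⟨0, fun h => absurd h hb⟩
  choose a ha using h1
  let b : ℕ → ℝ := fun n => Nat.rec (r / 2) (fun n x => min (a x) (r / (2 * ((n : ℝ) + 2)))) n
  have hb0 : b 0 = r / 2 := rfl
  have hbs : ∀ n, b (n + 1) = min (a (b n)) (r / (2 * ((n : ℝ) + 2))) := fun n => rfl
  have hbp : ∀ n, 0 < b n := by
    intro n
    induction n with
    | zero => rw [hb0]; positivity
    | succ n ih =>
      rw [hbs]
      exact lt_min (ha _ ih).1 (by positivity)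
  have hab : ∀ n, a (b n) < b n := by
    intro n
    obtain ⟨-, q, h2, h3⟩ := ha _ (hbp n)
    exact h2.trans h3
  have hanti : Antitone b := by
    refine antitone_nat_of_succ_le fun n => ?_
    rw [hbs]
    exact (min_le_left _ _).trans (hab n).le
  have hble : ∀ n : ℕ, b n ≤ r / (2 * ((n : ℝ) + 1)) := by
    intro n
    cases n with
    | zero => rw [hb0]; norm_num
    | succ n =>
      rw [hbs]
      refine (min_le_right _ _).trans (le_of_eq ?_)
      push_cast
      ring
  have h2 : ∀ n, ∃ η : M → M, Continuous η ∧ Function.Injective η ∧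
      ∀ u, η u ∈ {t | a (b n) < dist t p ∧ dist t p < b n} := by
    intro n
    refine hM _ ?_ ?_
    · exact (isOpen_lt continuous_const (continuous_id.dist continuous_const)).inter
        (isOpen_lt (continuous_id.dist continuous_const) continuous_const)
    · obtain ⟨-, q, h2, h3⟩ := ha _ (hbp n)
      exact ⟨q, h2, h3⟩
  choose η hc hi hη using h2
  have hlt : ∀ n n' u u', n < n' → η n u ≠ η n' u' := by
    intro n n' u u' hn h
    have h3 := (hη n u).1
    have h4 := (hη n' u').2
    rw [h] at h3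
    have h5 : b n' ≤ b (n + 1) := hanti hn
    have h6 : b (n + 1) ≤ a (b n) := by
      rw [hbs]
      exact min_le_left _ _
    linarith
  refine ⟨η, hc, ?_, ?_, ?_⟩
  · intro n n' u u' h
    rcases lt_trichotomy n n' with h1 | h1 | h1
    · exact absurd h (hlt _ _ _ _ h1)
    · subst h1
      exact ⟨rfl, hi n h⟩
    · exact absurd h.symm (hlt _ _ _ _ h1)
  · intro n u h
    have h3 := (hη n u).1
    rw [h, dist_self] at h3
    exact absurd h3 (not_lt.2 (ha _ (hbp n)).1.le)
  · intro n u
    exact (hη n u).2.le.trans (hble n)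

/-- a positive lower bound on a finite set -/
theorem fin_lb {ι : Type} (s : Finset ι) (d : ι → ℝ) (e : ℝ) (he : 0 < e)
    (hd : ∀ i ∈ s, 0 < d i) : ∃ r, 0 < r ∧ r ≤ e ∧ ∀ i ∈ s, r ≤ d i := by
  classical
  induction s using Finset.induction_on with
  | empty => exact ⟨e, he, le_rfl, by simp⟩
  | insert i s hi ih =>
    obtain ⟨r, h1, h2, h3⟩ := ih fun j hj => hd j (Finset.mem_insert_of_mem hj)
    refine ⟨min r (d i), lt_min h1 (hd i (Finset.mem_insert_self _ _)),
      (min_le_left _ _).trans h2, fun j hj => ?_⟩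
    rcases Finset.mem_insert.1 hj with rfl | hj
    · exact min_le_right _ _
    · exact (min_le_left _ _).trans (h3 j hj)

theorem slm : SlmStmt := by
  classical
  intro M _ _ _ hM K c
  -- the points
  obtain ⟨g, hg1, hg2⟩ := choice_inj
    (fun n => Metric.ball (c (Nat.unpair n).1 (Nat.unpair n).2)
      ((1 / 2 : ℝ) ^ ((Nat.unpair n).1 + 6)))
    (fun n => open_inf hM _ Metric.isOpen_ball ⟨_, Metric.mem_ball_self (by positivity)⟩)
  let p : ℕ → ℕ → M := fun m k => g (Nat.pair m k)
  have hp1 : ∀ m k, dist (p m k) (c m k) < (1 / 2 : ℝ) ^ (m + 6) := by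
    intro m k
    have h := hg1 (Nat.pair m k)
    simp only [Nat.unpair_pair, Metric.mem_ball] at h
    exact h
  have hp2 : ∀ m k m' k', p m k = p m' k' → m = m' ∧ k = k' := by
    intro m k m' k' h
    have h1 := hg2 h
    exact Nat.pair_eq_pair.1 h1
  -- the radii
  have hr : ∀ m k, ∃ r : ℝ, 0 < r ∧ r ≤ (1 / 2 : ℝ) ^ (m + 6) ∧
      ∀ m' k', m' ≤ m + 7 → k' < K m' → (m, k) ≠ (m', k') →
        3 * r ≤ dist (p m k) (p m' k') := by
    intro m k
    obtain ⟨r, h1, h2, h3⟩ := fin_lb
      (((Finset.range (m + 8)).sigma fun m' => Finset.range (K m')).filter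
        fun x : (_ : ℕ) × ℕ => (m, k) ≠ (x.1, x.2))
      (fun x => dist (p m k) (p x.1 x.2) / 3) ((1 / 2 : ℝ) ^ (m + 6)) (by positivity) (by
        intro x hx
        have h4 := (Finset.mem_filter.1 hx).2
        have h5 : 0 < dist (p m k) (p x.1 x.2) := by
          refine dist_pos.2 fun h => h4 ?_
          obtain ⟨h6, h7⟩ := hp2 _ _ _ _ h
          rw [← h6, ← h7]
        positivity)
    refine ⟨r, h1, h2, fun m' k' h4 h5 h6 => ?_⟩
    have h7 := h3 ⟨m', k'⟩ (Finset.mem_filter.2 ⟨Finset.mem_sigma.2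
      ⟨Finset.mem_range.2 (Nat.lt_succ_of_le h4), Finset.mem_range.2 h5⟩, h6⟩)
    simp only at h7
    linarith
  choose r hr0 hr1 hr2 using hr
  -- the copies
  have hη := fun m k => copies hM (p m k) (r m k) (hr0 m k)
  choose η hc hi hne hd using hη
  -- the cutoffs
  let w : ℕ → ℕ → C(M, ℝ) := fun m k => if k < K m then
    ⟨fun t => max 0 (min 1 (2 - 2 * dist t (p m k) / r m k)), by fun_prop⟩ else 0
  have hw : ∀ m k t, k < K m → w m k t = max 0 (min 1 (2 - 2 * dist t (p m k) / r m k)) := by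
    intro m k t hk
    simp only [w, if_pos hk]
    rfl
  have hw0 : ∀ m k t, ¬ k < K m → w m k t = 0 := by
    intro m k t hk
    simp only [w, if_neg hk]
    rfl
  have hw1 : ∀ m k t, k < K m → dist t (p m k) ≤ r m k / 2 → w m k t = 1 := by
    intro m k t hk h
    rw [hw m k t hk]
    have h1 : 2 * dist t (p m k) / r m k ≤ 1 := by
      rw [div_le_one (hr0 m k)]
      linarith
    rw [min_eq_left (by linarith)]
    simp
  have hws : ∀ m k t, w m k t ≠ 0 → k < K m ∧ dist t (p m k) < r m k := by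
    intro m k t h
    by_cases hk : k < K m
    · refine ⟨hk, ?_⟩
      by_contra h1
      rw [not_lt] at h1
      apply h
      rw [hw m k t hk]
      have h2 : 2 ≤ 2 * dist t (p m k) / r m k := by
        rw [le_div_iff₀ (hr0 m k)]
        linarith
      refine max_eq_left (le_trans (min_le_right _ _) ?_)
      linarith
    · exact absurd (hw0 m k t hk) h
  refine ⟨p, η, w, ⟨hc, hi, hne, ?_, ?_, ?_, ?_, ?_, ?_⟩⟩
  · intro m k n u
    refine (hd m k n u).trans ?_
    have h1 : (0 : ℝ) < (n : ℝ) + 1 := by positivity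
    rw [div_le_div_iff₀ (by positivity) h1]
    have h2 := hr1 m k
    have h3 := hr0 m k
    nlinarith
  · intro m k t
    by_cases hk : k < K m
    · rw [hw m k t hk]
      exact ⟨le_max_left _ _, max_le zero_le_one (min_le_left _ _)⟩
    · rw [hw0 m k t hk]
      exact ⟨le_rfl, zero_le_one⟩
  · intro m k hk
    refine hw1 m k _ hk ?_
    rw [dist_self]
    have := hr0 m k
    positivity
  · intro m k n u hk
    refine hw1 m k _ hk ((hd m k n u).trans ?_)
    have h1 : (1 : ℝ) ≤ (n : ℝ) + 1 := by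
      have : (0 : ℝ) ≤ (n : ℝ) := Nat.cast_nonneg n
      linarith
    rw [div_le_div_iff₀ (by positivity) two_pos]
    have h3 := hr0 m k
    nlinarith
  · intro m k t h
    obtain ⟨h1, h2⟩ := hws m k t h
    refine ⟨h1, ?_⟩
    have h3 := dist_triangle t (p m k) (c m k)
    have h4 := hp1 m k
    have h5 := hr1 m k
    have h6 : (1 / 2 : ℝ) ^ (m + 5) = 2 * (1 / 2 : ℝ) ^ (m + 6) := by
      rw [pow_succ (1 / 2 : ℝ) (m + 5)]
      ring
    rw [h6]
    linarith
  · intro m k m' k' t h1 h2 h3 h4
    obtain ⟨h5, h6⟩ := hws m k t h3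
    obtain ⟨h7, h8⟩ := hws m' k' t h4
    by_contra h9
    have h10 : (m, k) ≠ (m', k') := fun h => h9 (Prod.mk.inj h)
    have h11 := hr2 m k m' k' h2 h7 h10
    have h12 := hr2 m' k' m k h1 h5 h10.symm
    rw [dist_comm] at h12
    have h13 := dist_triangle_left (p m k) (p m' k') t
    have h14 : (0 : ℝ) ≤ dist (p m k) (p m' k') := dist_nonneg
    linarith

end Pool.Agent.SSF.H10
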